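import Mathlib
import Pool.Agent.KS6_9.SC.Core

/-!
# Spaces of separately continuous functions on finite products

The number of uncountable factors is an embedding obstruction for the spaces `SC_p(∏ X_i)` of
separately continuous functions with the topology of pointwise convergence, for arbitrary finite
products of separable metrizable (and more general) spaces. In particular, for every uncountable
separable metrizable space `X`, the space `SC_p(X^m)` embeds in `SC_p(X^n)` if and only if `m ≤ n`.
-/

set_option autoImplicit false

open Set Topology Filter TopologicalSpace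

namespace Pool.Agent.Results.MP_1441be_gt.AllProducts

open Pool.Agent.KS6_9.SC.Core (SepCont SCp HC core)

/-- composition with the restriction to some of the coordinates is an embedding -/
theorem embed {ι ι' : Type} (X : ι → Type) [∀ i, TopologicalSpace (X i)] (σ : ι' → ι)
    (hσ : Function.Injective σ)
    (hs : ∀ z' : ∀ i', X (σ i'), ∃ z : ∀ i, X i, ∀ i', z (σ i') = z' i') :
    ∃ φ : SCp (fun i' => X (σ i')) → SCp X, IsEmbedding φ := by
  classical
  have hsep : ∀ f : SCp (fun i' => X (σ i')),
      SepCont (fun z : ∀ i, X i => f.1 fun i' => z (σ i')) := by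
    intro f z i
    by_cases hi : ∃ i', σ i' = i
    · obtain ⟨i', rfl⟩ := hi
      have h1 := f.2 (fun i' => z (σ i')) i'
      have h2 : ∀ t, (fun j => Function.update z (σ i') t (σ j)) =
          Function.update (fun i' => z (σ i')) i' t := fun t =>
        Function.update_comp_eq_of_injective' z hσ i' t
      refine h1.congr fun t => ?_
      have h3 := h2 t
      convert (congrArg f.1 h3.symm) using 2
    · have h2 : ∀ t, (fun j => Function.update z i t (σ j)) = fun i' => z (σ i') := by
        intro t
        funext j
        exact Function.update_of_ne (fun h => hi ⟨j, h⟩) _ _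
      refine (continuous_const (y := f.1 fun i' => z (σ i'))).congr fun t => ?_
      have h3 := h2 t
      convert (congrArg f.1 h3.symm) using 2
  choose ext hext using hs
  refine ⟨fun f => ⟨fun z => f.1 fun i' => z (σ i'), hsep f⟩, ?_⟩
  refine IsEmbedding.of_comp (g := fun g : SCp X => fun z' : (∀ i', X (σ i')) => g.1 (ext z'))
    ?_ ?_ ?_
  · refine Continuous.subtype_mk (continuous_pi fun z => ?_) _
    exact (continuous_apply (fun i' => z (σ i'))).comp continuous_subtype_val
  · refine continuous_pi fun z' => ?_
    exact (continuous_apply (ext z')).comp continuous_subtype_val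
  · have h1 : ((fun g : SCp X => fun z' : (∀ i', X (σ i')) => g.1 (ext z')) ∘
        fun f : SCp (fun i' => X (σ i')) =>
          (⟨fun z => f.1 fun i' => z (σ i'), hsep f⟩ : SCp X)) = Subtype.val := by
      funext f z'
      change f.1 (fun i' => ext z' (σ i')) = f.1 z'
      rw [show (fun i' => ext z' (σ i')) = z' from funext (hext z')]
    rw [h1]
    exact IsEmbedding.subtypeVal

/-- the target condition -/
theorem seq_dense {Y : Type} [TopologicalSpace Y] [SeparableSpace Y] [FrechetUrysohnSpace Y] :
    ∃ D : Set Y, D.Countable ∧ ∀ y : Y, ∃ q : ℕ → Y, (∀ k, q k ∈ D) ∧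
      Tendsto q atTop (𝓝 y) := by
  obtain ⟨D, hD, hDd⟩ := exists_countable_dense Y
  exact ⟨D, hD, fun y => mem_closure_iff_seq_limit.1 (hDd y)⟩

/-- separable metrizable spaces have continuous injections into the Hilbert cube -/
theorem inj_cube (X : Type) [TopologicalSpace X] [MetrizableSpace X] [SeparableSpace X] :
    ∃ e : X → HC, Continuous e ∧ Function.Injective e := by
  let _ := metrizableSpaceMetric X
  rcases isEmpty_or_nonempty X with h | h
  · exact ⟨fun x => h.elim x, continuous_of_const fun x => h.elim x, fun x => h.elim x⟩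
  · refine ⟨fun z k => Set.projIcc 0 1 zero_le_one (dist z (denseSeq X k)), ?_, ?_⟩
    · exact continuous_pi fun k => continuous_projIcc.comp (continuous_id.dist continuous_const)
    · intro z w hzw
      by_contra hne
      have hr : 0 < dist z w := dist_pos.2 hne
      obtain ⟨k, hk⟩ := (denseRange_denseSeq X).exists_dist_lt z
        (lt_min one_pos (half_pos hr))
      have h1 : dist z (denseSeq X k) < 1 := hk.trans_le (min_le_left _ _)
      have h2 : dist z (denseSeq X k) < dist z w / 2 := hk.trans_le (min_le_right _ _)
      have h3 := congrArg Subtype.val (congrFun hzw k)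
      have h4 : dist z w ≤ dist z (denseSeq X k) + dist w (denseSeq X k) :=
        dist_triangle_right z w _
      have hz := dist_nonneg (x := z) (y := denseSeq X k)
      have hw := dist_nonneg (x := w) (y := denseSeq X k)
      simp only [Set.coe_projIcc] at h3
      rw [min_eq_right h1.le, max_eq_right hz] at h3
      rcases le_total (dist w (denseSeq X k)) 1 with h5 | h5
      · rw [min_eq_right h5, max_eq_right hw] at h3
        linarith
      · rw [min_eq_left h5, max_eq_right zero_le_one] at h3
        linarith

/-- the general obstruction -/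
theorem general {ι κ : Type} [Finite ι] [Finite κ] (X : ι → Type) (Y : κ → Type)
    [∀ i, TopologicalSpace (X i)] [∀ j, TopologicalSpace (Y j)] (hne : ∀ i, Nonempty (X i))
    (hX : ∀ i, Countable (X i) ∨ ∃ e : X i → HC, Continuous e ∧ Function.Injective e)
    (hY : ∀ j, Countable (Y j) ∨ (SeparableSpace (Y j) ∧ FrechetUrysohnSpace (Y j)))
    (hlt : Nat.card {j // Uncountable (Y j)} < Nat.card {i // Uncountable (X i)}) :
    ¬ ∃ φ : SCp X → SCp Y, IsEmbedding φ := by
  classical
  rintro ⟨φ, hφ⟩
  have : Fintype ι := Fintype.ofFinite ι
  have : Fintype κ := Fintype.ofFinite κ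
  obtain ⟨ψ, hψ⟩ := embed X (fun i' : {i // Uncountable (X i)} => i'.1) Subtype.val_injective (by
    intro z'
    refine ⟨fun i => if h : Uncountable (X i) then z' ⟨i, h⟩ else (hne i).some, fun i' => ?_⟩
    exact dif_pos i'.2)
  refine core (fun i' : {i // Uncountable (X i)} => X i'.1) Y ?_ (fun i' => i'.2)
    (Finset.univ.filter fun j => Uncountable (Y j)) ?_ ?_ ?_ ⟨φ ∘ ψ, hφ.comp hψ⟩
  · intro i'
    rcases hX i'.1 with h | h
    · exact absurd h (not_countable_iff.2 i'.2)
    · exact h
  · intro j hj
    rw [Finset.mem_filter, not_and] at hj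
    exact not_uncountable_iff.1 (hj (Finset.mem_univ j))
  · intro j hj
    have hj' : Uncountable (Y j) := (Finset.mem_filter.1 hj).2
    rcases hY j with h | ⟨h, h'⟩
    · exact absurd h (not_countable_iff.2 hj')
    · exact seq_dense
  · rw [Nat.card_eq_fintype_card, Nat.card_eq_fintype_card, Fintype.card_subtype] at hlt
    exact hlt

/-- the obstruction for powers of uncountable separable metrizable spaces -/
theorem powers (X Y : Type) [TopologicalSpace X] [MetrizableSpace X] [SeparableSpace X]
    [Uncountable X] [TopologicalSpace Y] [MetrizableSpace Y] [SeparableSpace Y]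
    (m n : ℕ) (hnm : n < m) :
    ¬ ∃ φ : SCp (fun _ : Fin m => X) → SCp (fun _ : Fin n => Y), IsEmbedding φ := by
  refine general (fun _ : Fin m => X) (fun _ : Fin n => Y) (fun _ => inferInstance)
    (fun _ => Or.inr (inj_cube X)) (fun _ => Or.inr ⟨inferInstance, inferInstance⟩) ?_
  have h1 : Nat.card {i : Fin m // Uncountable X} = m := by
    rw [Nat.card_congr (Equiv.subtypeUnivEquiv fun _ => ‹Uncountable X›), Nat.card_fin]
  have h2 : Nat.card {j : Fin n // Uncountable Y} ≤ n := by
    have := Nat.card_le_card_of_injective (Subtype.val : {j : Fin n // Uncountable Y} → Fin n)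
      Subtype.val_injective
    rwa [Nat.card_fin] at this
  omega

/-- **Embeddings between spaces of separately continuous functions.** -/
theorem result :
    -- arbitrary finite products: the number of uncountable factors cannot decrease
    (∀ (ι κ : Type) [Finite ι] [Finite κ] (X : ι → Type) (Y : κ → Type)
      [∀ i, TopologicalSpace (X i)] [∀ j, TopologicalSpace (Y j)],
      (∀ i, Nonempty (X i)) →
      (∀ i, Countable (X i) ∨ ∃ e : X i → (ℕ → unitInterval), Continuous e ∧ Function.Injective e) →
      (∀ j, Countable (Y j) ∨ (SeparableSpace (Y j) ∧ FrechetUrysohnSpace (Y j))) →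
      Nat.card {j // Uncountable (Y j)} < Nat.card {i // Uncountable (X i)} →
      ¬ ∃ φ : SCp X → SCp Y, IsEmbedding φ) ∧
    -- powers of an uncountable separable metrizable space
    (∀ (X : Type) [TopologicalSpace X] [MetrizableSpace X] [SeparableSpace X] [Uncountable X]
      (m n : ℕ), (∃ φ : SCp (fun _ : Fin m => X) → SCp (fun _ : Fin n => X), IsEmbedding φ) ↔
        m ≤ n) ∧
    -- homeomorphic function spaces: the exponents agree
    (∀ (X Y : Type) [TopologicalSpace X] [MetrizableSpace X] [SeparableSpace X] [Uncountable X]
      [TopologicalSpace Y] [MetrizableSpace Y] [SeparableSpace Y] [Uncountable Y]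
      (m n : ℕ), Nonempty (SCp (fun _ : Fin m => X) ≃ₜ SCp (fun _ : Fin n => Y)) → m = n) ∧
    -- the cubes
    (∀ m n : ℕ, (∃ φ : SCp (fun _ : Fin m => unitInterval) → SCp (fun _ : Fin n => unitInterval),
      IsEmbedding φ) ↔ m ≤ n) := by
  have hpow : ∀ (X : Type) [TopologicalSpace X] [MetrizableSpace X] [SeparableSpace X]
      [Uncountable X] (m n : ℕ),
      (∃ φ : SCp (fun _ : Fin m => X) → SCp (fun _ : Fin n => X), IsEmbedding φ) ↔ m ≤ n := by
    intro X _ _ _ _ m n
    constructor
    · intro h
      by_contra hmn
      exact powers X X m n (not_le.1 hmn) h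
    · intro hmn
      refine embed (fun _ : Fin n => X) (Fin.castLE hmn) (Fin.castLE_injective hmn) fun z' => ?_
      have hX : Nonempty X := inferInstance
      exact ⟨fun i => Function.extend (Fin.castLE hmn) z' (fun _ => hX.some) i, fun i' =>
        (Fin.castLE_injective hmn).extend_apply _ _ _⟩
  refine ⟨fun ι κ _ _ X Y _ _ => general X Y, hpow, ?_, ?_⟩
  · rintro X Y _ _ _ _ _ _ _ _ m n ⟨φ⟩
    rcases lt_trichotomy m n with h | h | h
    · exact absurd ⟨φ.symm, φ.symm.isEmbedding⟩ (powers Y X n m h)
    · exact h
    · exact absurd ⟨φ, φ.isEmbedding⟩ (powers X Y m n h)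
  · have : Uncountable unitInterval := by
      rw [← not_countable_iff]
      intro h
      have h5 : (Icc (0 : ℝ) 1).Countable := Set.countable_coe_iff.1 h
      exact absurd h5 (Cardinal.Real.Icc_countable_iff.not.2 (by norm_num))
    exact hpow unitInterval

end Pool.Agent.Results.MP_1441be_gt.AllProducts
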